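import Pool.Agent.N805.VP.Base
import Pool.Agent.N805.VP.Stm3

/-! # From unions of cells to products of cells, two points, lower bound, from repulsion

Adaptation of the files `N152/VP/CELO.lean` (helper152) and `N342/VP/CELE.lean` (helper342). -/

set_option autoImplicit false

open MeasureTheory Set Filter Topology

namespace Pool.Agent.N255.VP

open Pool.Agent.N805.VP

/-- finitely many cells are bounded -/
lemma cells_bdd {k : ℕ} {h : ℝ} (hh : 0 < h) (g : Fin k → ℤ) :
    ∃ b : ℝ, ∀ i, cell h (g i) ⊆ Icc (-b) b := by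
  refine ⟨(∑ i, |(g i : ℝ)| * h) + h, fun i => cell_bdd hh ?_⟩
  exact Finset.single_le_sum (f := fun i => |(g i : ℝ)| * h) (fun _ _ => by positivity)
    (Finset.mem_univ i)

/-- a coincident pair -/
lemma G_coin (hD : S_DET) {k : ℕ} {h : ℝ} (hh : 0 < h) (g : Fin k → ℤ) {i1 i2 : Fin k}
    (hne : i1 ≠ i2) (hg : g i1 = g i2) : G (fun i => cell h (g i)) ≤ 4 * h ^ (k + 2) := by
  have h0 := G_le_of (c := fun i => cell h (g i)) (fun i => cell_meas h _) (cells_bdd hh g)
    (M := 4 * h ^ 2) ?_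
  · refine h0.trans (le_of_eq ?_)
    simp_rw [cell_vol h hh.le]
    rw [Finset.prod_const, Finset.card_univ, Fintype.card_fin]
    ring
  · intro q hq
    refine ((hD k q).2.2 i1 i2 hne).trans ?_
    have h1 : q i1 ∈ cell h (g i1) := hq i1 (mem_univ _)
    have h2 : q i2 ∈ cell h (g i2) := hq i2 (mem_univ _)
    rw [hg] at h1
    have h3 := h1.1
    have h4 := h1.2
    have h5 := h2.1
    have h6 := h2.2
    have h7 : (q i1 - q i2) ^ 2 ≤ h ^ 2 := by
      apply sq_le_sq'
      · nlinarith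
      · nlinarith
    linarith

theorem CELR : Pool.Agent.N805.VP.S_CELR := by
  classical
  intro hD hSPL hSYM l J x X hX c hc hR hU b η hη
  obtain ⟨r1, hr1, hR1⟩ := hR (η / 4) (by positivity)
  obtain ⟨r2, hr2⟩ := exists_nat_ge (2 / c)
  obtain ⟨r3, hr3⟩ := exists_nat_ge (4 / η)
  refine ⟨r1 + r2 + r3, by omega, fun r hr f hf ε hε => ?_⟩
  have hr1' : 1 ≤ r := by omega
  have hr0 : (0 : ℝ) < r := by exact_mod_cast hr1'
  have hrr : (1 : ℝ) ≤ r := by exact_mod_cast hr1'
  have hh : 0 < 1 / (r : ℝ) := by positivity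
  have hrc : 2 / (r : ℝ) ≤ c := by
    have h1 : (r2 : ℝ) ≤ r := by exact_mod_cast (by omega : r2 ≤ r)
    have h2 : 2 / c ≤ r := hr2.trans h1
    rw [div_le_iff₀ hc] at h2
    rw [div_le_iff₀ hr0]
    linarith
  have hrη : 4 ≤ η * (r : ℝ) ^ 2 := by
    have h1 : (r3 : ℝ) ≤ r := by exact_mod_cast (by omega : r3 ≤ r)
    have h2 : 4 / η ≤ r := hr3.trans h1
    rw [div_le_iff₀ hη] at h2
    nlinarith
  have hRep := hR1 r (by omega)
  by_cases hinj : Function.Injective f
  swap
  · filter_upwards [hX] with T hT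
    obtain ⟨i1, i2, h12, hne⟩ : ∃ i1 i2, f i1 = f i2 ∧ i1 ≠ i2 := by
      unfold Function.Injective at hinj
      push Not at hinj
      exact hinj
    have h1 := G_coin hD hh f hne h12
    have h2 : 0 ≤ mom (J T) (x T) (fun i => cell (1 / (r : ℝ)) (f i)) / X T :=
      div_nonneg (mom_nonneg _) hT.le
    have h3 : 4 * (1 / (r : ℝ)) ^ (2 + 2) ≤ η / (r : ℝ) ^ 2 := by
      rw [one_div_pow, le_div_iff₀ (by positivity), mul_one_div, div_mul_eq_mul_div,
        div_le_iff₀ (by positivity)]
      calc 4 * (r : ℝ) ^ 2 ≤ (η * (r : ℝ) ^ 2) * (r : ℝ) ^ 2 :=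
            mul_le_mul_of_nonneg_right hrη (by positivity)
        _ = η * (r : ℝ) ^ (2 + 2) := by ring
    linarith
  · obtain ⟨A, hA⟩ : ∃ A : Finset ℤ, A = Finset.univ.image f := ⟨_, rfl⟩
    have hAc : A.card ≤ 2 := by
      rw [hA]
      refine Finset.card_image_le.trans ?_
      simp
    have hAc' : (A.card : ℝ) / r ≤ c := by
      refine le_trans ?_ hrc
      refine div_le_div_of_nonneg_right ?_ hr0.le
      exact_mod_cast hAc
    obtain ⟨B, hB⟩ : ∃ B : Finset (Fin 2 → ℤ), B = (Fintype.piFinset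
        (fun _ : Fin 2 => A)).filter (fun g => ¬ Function.Injective g) := ⟨_, rfl⟩
    have hBc : (B.card : ℝ) ≤ 4 := by
      have h1 : B.card ≤ 2 ^ 2 := by
        rw [hB]
        refine (Finset.card_filter_le _ _).trans ?_
        rw [Fintype.card_piFinset, Finset.prod_const, Finset.card_univ, Fintype.card_fin]
        exact Nat.pow_le_pow_left hAc _
      have h2 : (B.card : ℝ) ≤ ((2 ^ 2 : ℕ) : ℝ) := by exact_mod_cast h1
      refine h2.trans (by norm_num)
    have hev1 : ∀ᶠ T in l, ∀ g ∈ B, mom (J T) (x T) (fun i => cell (1 / (r : ℝ)) (g i)) / X T ≤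
        η / 4 / (r : ℝ) ^ 2 := by
      rw [Finset.eventually_all]
      intro g hg
      rw [hB, Finset.mem_filter] at hg
      have hg1 : (fun i => cell (1 / (r : ℝ)) (g i)) = fun _ : Fin 2 => cell (1 / (r : ℝ)) (g 0) := by
        have h01 : g 0 = g 1 := by
          by_contra hne
          apply hg.2
          intro i j hij
          fin_cases i <;> fin_cases j
          · rfl
          · exact absurd hij hne
          · exact absurd hij.symm hne
          · rfl
        funext i
        fin_cases i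
        · rfl
        · show cell (1 / (r : ℝ)) (g 1) = cell (1 / (r : ℝ)) (g 0)
          rw [h01]
      rw [hg1]
      exact hRep (g 0)
    have hev2 := hU r hr1' A hAc' ε hε
    filter_upwards [hX, hev1, hev2] with T hT h1 h2
    obtain ⟨F, hF⟩ : ∃ F : (Fin 2 → ℤ) → ℝ, F = fun g =>
      G (fun i => cell (1 / (r : ℝ)) (g i)) -
        mom (J T) (x T) (fun i => cell (1 / (r : ℝ)) (g i)) / X T := ⟨_, rfl⟩
    have hFs : ∀ (σ : Equiv.Perm (Fin 2)) (g : Fin 2 → ℤ),
        F (fun i => g (σ i)) = F g := by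
      intro σ g
      have h3 := hSPL.2 (J T) (x T) 2 σ (fun i => cell (1 / (r : ℝ)) (g i))
      rw [hF]
      show G (fun i => cell (1 / (r : ℝ)) (g (σ i))) -
        mom (J T) (x T) (fun i => cell (1 / (r : ℝ)) (g (σ i))) / X T = _
      rw [h3.1, h3.2]
    have hsym := hSYM 2 F hFs f hinj
    have hspl := hSPL.1 ℤ (J T) (x T) (cell (1 / (r : ℝ))) A
      (fun a _ => ⟨cell_meas _ _, _, cell_bdd hh (le_refl _)⟩)
      ((cell_disj hh).subset (subset_univ _)) 2
    have hsum : ∑ g ∈ Fintype.piFinset (fun _ : Fin 2 => A), F g =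
        G (fun _ : Fin 2 => U (1 / (r : ℝ)) A) -
        mom (J T) (x T) (fun _ : Fin 2 => U (1 / (r : ℝ)) A) / X T := by
      rw [hF, Finset.sum_sub_distrib, ← Finset.sum_div]
      unfold U
      rw [hspl.1, hspl.2]
    have hs2 : ∑ g ∈ Fintype.piFinset (fun _ : Fin 2 => A), F g =
        (Nat.factorial 2 : ℝ) * F f + ∑ g ∈ B, F g := by
      rw [hB, hA]
      convert hsym using 2
    have hs3 : -∑ g ∈ B, F g ≤ 4 * (η / 4 / (r : ℝ) ^ 2) := by
      rw [← Finset.sum_neg_distrib]
      have h4 : ∀ g ∈ B, -F g ≤ η / 4 / (r : ℝ) ^ 2 := by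
        intro g hg
        have h5 := h1 g hg
        have h6 : 0 ≤ G (fun i => cell (1 / (r : ℝ)) (g i)) :=
          G_nonneg hD fun i => cell_meas _ _
        rw [hF]
        show -(G (fun i => cell (1 / (r : ℝ)) (g i)) -
          mom (J T) (x T) (fun i => cell (1 / (r : ℝ)) (g i)) / X T) ≤ _
        linarith
      refine (Finset.sum_le_sum h4).trans ?_
      rw [Finset.sum_const, nsmul_eq_mul]
      exact mul_le_mul_of_nonneg_right hBc (by positivity)
    have h7 : 4 * (η / 4 / (r : ℝ) ^ 2) = η / (r : ℝ) ^ 2 := by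
      field_simp
    have h9 : (Nat.factorial 2 : ℝ) = 2 := by
      norm_num [Nat.factorial]
    rw [h9, hsum] at hs2
    have h8 : 2 * F f ≤ η / (r : ℝ) ^ 2 + ε := by
      rw [h7] at hs3
      have h80 : 2 * F f = (G (fun _ : Fin 2 => U (1 / (r : ℝ)) A) -
        mom (J T) (x T) (fun _ : Fin 2 => U (1 / (r : ℝ)) A) / X T) - ∑ g ∈ B, F g := by
        rw [hs2]
        ring
      rw [h80]
      have h81 : G (fun _ : Fin 2 => U (1 / (r : ℝ)) A) -
        mom (J T) (x T) (fun _ : Fin 2 => U (1 / (r : ℝ)) A) / X T ≤ ε := by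
        have := h2
        rw [neg_one_mul, neg_sub] at this
        exact this
      linarith
    have h10 : F f ≤ η / (r : ℝ) ^ 2 + ε := by
      rcases le_or_gt (F f) 0 with h | h
      · exact h.trans (by positivity)
      · linarith
    have h12 : F f = G (fun i => cell (1 / (r : ℝ)) (f i)) -
        mom (J T) (x T) (fun i => cell (1 / (r : ℝ)) (f i)) / X T := by rw [hF]
    linarith

end Pool.Agent.N255.VP
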